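import Mathlib
import Pool.Agent.Helper47.M.Defs
import Pool.Agent.Helper94.M.Tensor
import Pool.Agent.Helper76.M.T
import Pool.Agent.Helper92.GF.Basic

/-!
# Theorem M: the Jacobian determinant is not a zero divisor modulo the ideal

With generic coefficients the ideal is the kernel of an endomorphism of the polynomial ring (solve
for one coefficient of every form), so it is prime. By generic freeness the Jacobian determinant in
the last `l` affine coordinates of a factor with `N r = l + 1` is not a zero divisor modulo the ideal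
for general coefficients.
-/

set_option autoImplicit false

namespace Pool.Agent.Helper28.M

open MvPolynomial Pool.Agent.Helper47.M

variable {k l : ℕ} {N : Fin k → ℕ} {d : Fin l → Fin k → ℕ}

/-- The number `j + 1` as an index of the affine coordinates of the factor `r`. -/
def qj {r : Fin k} (hr : N r = l + 1) (j : Fin l) : Fin (N r) := Fin.cast hr.symm j.succ

/-- The affine coordinate of the factor `r` with the number `j + 1`. -/
def vj {r : Fin k} (hr : N r = l + 1) (j : Fin l) : Vr N := ⟨r, qj hr j⟩

/-- The Jacobian determinant in the last `l` affine coordinates of the factor `r`. -/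
noncomputable def Jdet {K : Type*} [Field K] (c : Tx N d → K) {r : Fin k} (hr : N r = l + 1) :
    MvPolynomial (Vr N) K :=
  (Matrix.of fun i j => pderiv (vj hr j) (Fm (fun e => C (c e)) (ch K N) i)).det

section generic

variable (N d)

/-- The ring of the coefficients. -/
abbrev Rg := MvPolynomial (Tx N d) ℚ

/-- Polynomials over a ring. -/
abbrev Pl (S : Type*) [CommRing S] := MvPolynomial (Vr N) S

/-- The chart point over a ring. -/
noncomputable def chR (S : Type*) [CommRing S] : Pt N (Pl N S) := fun r => Fin.cons 1 fun j => X ⟨r, j⟩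

variable {N d}

/-- The forms over a ring. -/
noncomputable def FR {S : Type*} [CommRing S] (c : Tx N d → S) (i : Fin l) : Pl N S :=
  Fm (fun e => C (c e)) (chR N S) i

/-- The ideal over a ring. -/
noncomputable def idR {S : Type*} [CommRing S] (c : Tx N d → S) : Ideal (Pl N S) :=
  Ideal.span (Set.range fun i => FR c i)

/-- The Jacobian determinant over a ring. -/
noncomputable def JR {S : Type*} [CommRing S] (c : Tx N d → S) {r : Fin k} (hr : N r = l + 1) :
    Pl N S := (Matrix.of fun i j => pderiv (vj hr j) (FR c i)).det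

theorem idR_eq {K : Type*} [Field K] (c : Tx N d → K) : idR c = idl c := rfl

theorem JR_eq {K : Type*} [Field K] (c : Tx N d → K) {r : Fin k} (hr : N r = l + 1) :
    JR c hr = Jdet c hr := rfl

/-- The index of the constant coefficient. -/
def t0 (e : Fin k → ℕ) : Tn N e := fun _ _ => 0

open Classical in
/-- Coefficients with support at the constant coefficients. -/
noncomputable def sp0 {S : Type*} [CommRing S] (v : Fin l → S) : Tx N d → S := fun e =>
  if e.2 = t0 (d e.1) then v e.1 else 0

theorem Fm_add {S : Type*} [CommRing S] (c c' : Tx N d → S) (x : Pt N S) (i : Fin l) :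
    Fm (fun e => c e + c' e) x i = Fm c x i + Fm c' x i :=
  Pool.Agent.Helper94.M.fv_add _ _ _

theorem Fm_sp0 {S : Type*} [CommRing S] (v : Fin l → S) (x : Pt N S) (hx : ∀ r, x r 0 = 1)
    (i : Fin l) : Fm (sp0 (d := d) v) x i = v i := by
  classical
  unfold Fm fv tv
  rw [Finset.sum_eq_single (t0 (d i))]
  · simp [sp0, t0, hx]
  · intro m _ hm
    simp [sp0, hm]
  · intro h
    exact absurd (Finset.mem_univ _) h

theorem Fm_map {S S' : Type*} [CommRing S] [CommRing S'] (f : S →+* S') (c : Tx N d → S)
    (x : Pt N S) (i : Fin l) :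
    f (Fm c x i) = Fm (fun e => f (c e)) (fun r i => f (x r i)) i := by
  unfold Fm fv tv
  simp only [map_sum, map_mul, map_prod]

theorem dF_map' {S S' : Type*} [CommRing S] [CommRing S'] (f : S →+* S') (c : Tx N d → S)
    (x : Pt N S) (j : Fin k) (b : Fin (N j + 1) → S) (i : Fin l) :
    f (dF c x j b i) = dF (fun e => f (c e)) (fun r i => f (x r i)) j (fun i => f (b i)) i := by
  unfold dF dv tv
  simp only [map_sum, map_mul, map_prod]
  refine Finset.sum_congr rfl fun t _ => Finset.sum_congr rfl fun m _ => ?_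
  congr 1
  refine Finset.prod_congr rfl fun r _ => Finset.prod_congr rfl fun t' _ => ?_
  unfold slot
  by_cases hr : r = j
  · subst hr
    rw [Function.update_self, Function.update_self]
    by_cases ht : t' = t
    · subst ht
      rw [Function.update_self, Function.update_self]
    · rw [Function.update_of_ne ht, Function.update_of_ne ht]
  · rw [Function.update_of_ne hr, Function.update_of_ne hr]

theorem map_chR {S S' : Type*} [CommRing S] [CommRing S'] (φ : S →+* S') :
    (fun r i => MvPolynomial.map φ (chR N S r i)) = chR N S' := by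
  funext r i
  unfold chR
  refine Fin.cases ?_ (fun j => ?_) i
  · rw [Fin.cons_zero, Fin.cons_zero, map_one]
  · rw [Fin.cons_succ, Fin.cons_succ, map_X]

theorem map_FR {S S' : Type*} [CommRing S] [CommRing S'] (φ : S →+* S') (c : Tx N d → S)
    (i : Fin l) : MvPolynomial.map φ (FR c i) = FR (fun e => φ (c e)) i := by
  unfold FR
  rw [Fm_map, map_chR]
  simp only [map_C]

theorem map_idR {S S' : Type*} [CommRing S] [CommRing S'] (φ : S →+* S') (c : Tx N d → S) :
    (idR c).map (MvPolynomial.map φ) = idR fun e => φ (c e) := by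
  unfold idR
  rw [Ideal.map_span, ← Set.range_comp]
  congr 2
  funext i
  exact map_FR φ c i

theorem map_JR {S S' : Type*} [CommRing S] [CommRing S'] (φ : S →+* S') (c : Tx N d → S)
    {r : Fin k} (hr : N r = l + 1) :
    MvPolynomial.map φ (JR c hr) = JR (fun e => φ (c e)) hr := by
  unfold JR
  rw [RingHom.map_det]
  congr 1
  ext1 i j
  show MvPolynomial.map φ (pderiv (vj hr j) (FR c i)) = pderiv (vj hr j) (FR (fun e => φ (c e)) i)
  rw [← map_FR, pderiv_map]

/-- The generic coefficients. -/
noncomputable def gc : Tx N d → Rg N d := X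

/-- The solution for the constant coefficients. -/
noncomputable def cs (e : Tx N d) : Pl N (Rg N d) :=
  C (gc e) + sp0 (fun i => -FR gc i) e

theorem Fm_cs (i : Fin l) : Fm (cs (N := N) (d := d)) (chR N (Rg N d)) i = 0 := by
  have h := Fm_add (fun e => (C (gc e) : Pl N (Rg N d))) (sp0 fun i => -FR gc i)
    (chR N (Rg N d)) i
  unfold cs
  rw [h, Fm_sp0 _ _ (fun r => rfl)]
  unfold FR
  rw [add_neg_cancel]

/-- The endomorphism which solves for the constant coefficients. -/
noncomputable def psi : Pl N (Rg N d) →+* Pl N (Rg N d) :=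
  eval₂Hom (aeval (cs (N := N) (d := d)) : MvPolynomial (Tx N d) ℚ →ₐ[ℚ] Pl N (Rg N d)).toRingHom X

theorem psi_C (e : Tx N d) : psi (C (gc e)) = cs e := by
  rw [psi, coe_eval₂Hom, eval₂_C]
  exact aeval_X _ _

theorem psi_X (q : Vr N) : psi (d := d) (X q) = X q := by
  rw [psi, coe_eval₂Hom, eval₂_X]

theorem psi_chR : (fun r i => psi (chR N (Rg N d) r i)) = chR N (Rg N d) := by
  funext r i
  unfold chR
  refine Fin.cases ?_ (fun j => ?_) i
  · rw [Fin.cons_zero, map_one]
  · rw [Fin.cons_succ, psi_X]

theorem le_ker : idR (gc (N := N) (d := d)) ≤ RingHom.ker (psi (N := N) (d := d)) := by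
  unfold idR
  rw [Ideal.span_le]
  rintro F ⟨i, rfl⟩
  show psi _ = 0
  unfold FR
  rw [Fm_map, psi_chR]
  simp only [psi_C]
  exact Fm_cs i

theorem mk_cs (e : Tx N d) : Ideal.Quotient.mk (idR (gc (N := N) (d := d))) (cs e) =
    Ideal.Quotient.mk (idR (gc (N := N) (d := d))) (C (gc e)) := by
  classical
  unfold cs
  rw [map_add, add_eq_left, Ideal.Quotient.eq_zero_iff_mem]
  unfold sp0
  split_ifs
  · exact (idR _).neg_mem (Ideal.subset_span ⟨e.1, rfl⟩)
  · exact Ideal.zero_mem _

theorem mk_psi (F : Pl N (Rg N d)) : Ideal.Quotient.mk (idR (gc (N := N) (d := d))) (psi F) =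
    Ideal.Quotient.mk (idR (gc (N := N) (d := d))) F := by
  have h : (Ideal.Quotient.mk (idR (gc (N := N) (d := d)))).comp psi =
      Ideal.Quotient.mk (idR (gc (N := N) (d := d))) := by
    apply MvPolynomial.ringHom_ext'
    · apply MvPolynomial.ringHom_ext
      · intro a
        have e1 : psi (N := N) (d := d) (C (C a)) = C (C a) := by
          rw [psi, coe_eval₂Hom, eval₂_C]
          exact algHom_C (aeval (cs (N := N) (d := d)) : MvPolynomial (Tx N d) ℚ →ₐ[ℚ] _) a
        simp only [RingHom.comp_apply, e1]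
      · intro e
        have e1 := mk_cs e
        rw [← psi_C] at e1
        exact e1
    · intro q
      simp only [RingHom.comp_apply, psi_X]
  exact DFunLike.congr_fun h F

theorem ker_psi : RingHom.ker (psi (N := N) (d := d)) = idR (gc (N := N) (d := d)) := by
  refine le_antisymm (fun F hF => ?_) le_ker
  rw [← Ideal.Quotient.eq_zero_iff_mem, ← mk_psi, (RingHom.mem_ker).mp hF, map_zero]

theorem prime_gc : (idR (gc (N := N) (d := d))).IsPrime := by
  rw [← ker_psi]
  exact RingHom.ker_isPrime _

end generic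

section special

theorem pderiv_FR {S : Type*} [CommRing S] (c : Tx N d → S) (i : Fin l) (r : Fin k)
    (q : Fin (N r)) : pderiv (⟨r, q⟩ : Vr N) (FR c i) =
      dF (fun e => C (c e)) (chR N S) r (Pi.single q.succ 1) i := by
  classical
  have h0 : ∀ r' i', pderiv (⟨r, q⟩ : Vr N) (chR N S r' i') =
      if (⟨r', i'⟩ : Σ r : Fin k, Fin (N r + 1)) = ⟨r, q.succ⟩ then 1 else 0 := by
    intro r' i'
    unfold chR
    refine Fin.cases ?_ (fun j => ?_) i'
    · rw [Fin.cons_zero, pderiv_one, if_neg]
      intro h
      obtain ⟨h1, h2⟩ := Sigma.mk.inj_iff.1 h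
      subst h1
      exact (Fin.succ_ne_zero q) (eq_of_heq h2).symm
    · rw [Fin.cons_succ, pderiv_X]
      by_cases hq : (⟨r', j⟩ : Vr N) = ⟨r, q⟩
      · obtain ⟨h1, h2⟩ := Sigma.mk.inj_iff.1 hq
        subst h1
        have h3 := eq_of_heq h2
        subst h3
        simp
      · rw [if_neg, Pi.single_eq_of_ne hq]
        intro h
        apply hq
        obtain ⟨h1, h2⟩ := Sigma.mk.inj_iff.1 h
        subst h1
        rw [Fin.succ_injective _ (eq_of_heq h2)]
  have h1 := Pool.Agent.Helper76.M.fv_der1 (pderiv (⟨r, q⟩ : Vr N) (R := S))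
    (fun m => (C (c ⟨i, m⟩) : Pl N S)) (fun m => pderiv_C) (chR N S) r (fun r' hr' i' => by
      rw [h0, if_neg]
      intro h
      exact hr' (Sigma.mk.inj_iff.1 h).1)
  refine h1.trans ?_
  unfold dF
  congr 1
  funext i'
  rw [h0]
  by_cases hi : i' = q.succ
  · subst hi
    rw [if_pos rfl, Pi.single_eq_same]
  · rw [if_neg, Pi.single_eq_of_ne hi]
    intro h
    exact hi (eq_of_heq (Sigma.mk.inj_iff.1 h).2)

/-- A rational point at which the Jacobian determinant does not vanish. -/
theorem exists_point (h : Ty N d) {r : Fin k} (hr : N r = l + 1) :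
    ∃ (c : Tx N d → ℚ) (φ : Pl N ℚ →+* ℚ), (∀ i, φ (FR c i) = 0) ∧ φ (JR c hr) ≠ 0 := by
  classical
  let x0 : Pt N ℚ := fun j => Pi.single 0 1
  have hx0 : ∀ j, x0 j ≠ 0 := fun j h => by
    have := congrFun h 0
    simp [x0] at this
  have hT : ∀ i, ∃ a : Tn N (d i) → ℚ, fv a x0 = 0 ∧
      ∀ b, b 0 = 0 → dv a x0 r b = ∑ i', (Pi.single (qj hr i).succ (1 : ℚ) :
        Fin (N r + 1) → ℚ) i' * b i' := fun i =>
    Pool.Agent.Helper94.M.exists_tensor (fun j => h.pos i j) x0 hx0 r 0 (by simp [x0]) 0 _
  choose a ha1 ha2 using hT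
  let c : Tx N d → ℚ := fun e => a e.1 e.2
  let φ : Pl N ℚ →+* ℚ := eval₂Hom (RingHom.id ℚ) fun q => x0 q.1 q.2.succ
  have hφ : (fun j i => φ (chR N ℚ j i)) = x0 := by
    funext j i
    unfold chR
    refine Fin.cases ?_ (fun q => ?_) i
    · rw [Fin.cons_zero, map_one]
      simp [x0]
    · rw [Fin.cons_succ]
      exact eval₂_X _ _ _
  have hφC : ∀ a : ℚ, φ (C a) = a := fun a => eval₂_C _ _ _
  refine ⟨c, φ, fun i => ?_, ?_⟩
  · unfold FR
    rw [Fm_map, hφ]
    simp only [hφC]
    exact ha1 i
  · unfold JR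
    rw [RingHom.map_det]
    have h1 : φ.mapMatrix (Matrix.of fun i j => pderiv (vj hr j) (FR c i)) = 1 := by
      ext i j
      show φ (pderiv (vj hr j) (FR c i)) = _
      have h2 : pderiv (vj hr j) (FR c i) =
        dF (fun e => C (c e)) (chR N ℚ) r (Pi.single (qj hr j).succ 1) i :=
        pderiv_FR c i r (qj hr j)
      rw [h2]
      have h3 : φ (dF (fun e => C (c e)) (chR N ℚ) r (Pi.single (qj hr j).succ 1) i) =
          dF c x0 r (Pi.single (qj hr j).succ 1) i := by
        rw [dF_map', hφ]
        simp only [hφC]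
        congr 1
        funext i'
        by_cases hi : i' = (qj hr j).succ
        · subst hi
          simp
        · rw [Pi.single_eq_of_ne hi, Pi.single_eq_of_ne hi, map_zero]
      rw [h3]
      refine (ha2 i _ ?_).trans ?_
      · rw [Pi.single_eq_of_ne]
        exact (Fin.succ_ne_zero _).symm
      · rw [Finset.sum_eq_single (qj hr j).succ]
        · rw [Pi.single_eq_same, mul_one, Matrix.one_apply]
          by_cases hij : i = j
          · rw [if_pos hij, hij, Pi.single_eq_same]
          · rw [if_neg hij, Pi.single_eq_of_ne]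
            intro h4
            apply hij
            have h5 := Fin.succ_injective _ h4
            unfold qj at h5
            have h6 := (finCongr hr.symm).injective h5
            exact (Fin.succ_injective _ h6).symm
        · intro i' _ hi'
          rw [Pi.single_eq_of_ne hi', mul_zero]
        · intro h
          exact absurd (Finset.mem_univ _) h
    rw [h1, Matrix.det_one]
    exact one_ne_zero

/-- For general coefficients the Jacobian determinant is not a zero divisor. -/
theorem jac_nzd (h : Ty N d) {r : Fin k} (hr : N r = l + 1) :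
    ∃ Δ : MvPolynomial (Tx N d) ℚ, Δ ≠ 0 ∧ ∀ (K : Type) [Field K] [CharZero K] (c : Tx N d → K),
      aeval c Δ ≠ 0 → ∀ (n : ℕ) (G : MvPolynomial (Vr N) K), Jdet c hr ^ n * G ∈ idl c →
        G ∈ idl c := by
  obtain ⟨c1, φ1, h1, h2⟩ := exists_point h hr
  have hprime := prime_gc (N := N) (d := d)
  have hden : JR (gc (N := N) (d := d)) hr ∉ idR (gc (N := N) (d := d)) := by
    intro h3
    have h4 := Ideal.mem_map_of_mem (MvPolynomial.map
      ((aeval c1 : MvPolynomial (Tx N d) ℚ →ₐ[ℚ] ℚ) : MvPolynomial (Tx N d) ℚ →+* ℚ)) h3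
    have e1 : (fun e => ((aeval c1 : MvPolynomial (Tx N d) ℚ →ₐ[ℚ] ℚ) :
        MvPolynomial (Tx N d) ℚ →+* ℚ) (gc e)) = c1 := by
      funext e
      exact aeval_X c1 e
    rw [map_idR, map_JR, e1] at h4
    apply h2
    have h5 : idR c1 ≤ RingHom.ker φ1 := by
      unfold idR
      rw [Ideal.span_le]
      rintro _ ⟨i, rfl⟩
      exact h1 i
    exact h5 h4
  obtain ⟨Δ, hΔ, H⟩ := Pool.Agent.Helper92.GF.exists_nzd.{0, 0, 0} (idR (gc (N := N) (d := d)))
    (JR (gc (N := N) (d := d)) hr) fun F hF => (hprime.mem_or_mem hF).resolve_left hden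
  refine ⟨Δ, hΔ, fun K _ _ c hc n G hG => ?_⟩
  have e1 : (fun e => ((aeval c : MvPolynomial (Tx N d) ℚ →ₐ[ℚ] K) :
      MvPolynomial (Tx N d) ℚ →+* K) (gc e)) = c := by
    funext e
    exact aeval_X c e
  have h3 := H K ((aeval c : MvPolynomial (Tx N d) ℚ →ₐ[ℚ] K) : MvPolynomial (Tx N d) ℚ →+* K) hc
  rw [map_idR, map_JR, e1, idR_eq, JR_eq] at h3
  induction n with
  | zero => rwa [pow_zero, one_mul] at hG
  | succ n ih =>
    apply ih
    apply h3
    rwa [← mul_assoc, ← pow_succ']

end special

end Pool.Agent.Helper28.M
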