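import Mathlib
import Pool.Agent.Helper47.M.Defs
import Pool.Agent.Helper76.M.T
import Pool.Agent.Helper28.M.Q12

/-!
# Theorem M: block A (tensors)
-/

set_option autoImplicit false

namespace Pool.Agent.Helper28.M.A

open MvPolynomial Pool.Agent.Helper47.M

variable {k l : ℕ} {N : Fin k → ℕ} {e : Fin k → ℕ} {S S' : Type*} [CommRing S] [CommRing S']

theorem fv_map (f : S →+* S') (a : Tn N e → S) (x : Pt N S) :
    f (fv a x) = fv (fun m => f (a m)) (fun r i => f (x r i)) := by
  unfold fv tv
  simp only [map_sum, map_mul, map_prod]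

theorem dv_map (f : S →+* S') (a : Tn N e → S) (x : Pt N S) (j : Fin k) (b : Fin (N j + 1) → S) :
    f (dv a x j b) = dv (fun m => f (a m)) (fun r i => f (x r i)) j (fun i => f (b i)) :=
  dF_map' (d := fun _ : Fin 1 => e) f (fun m => a m.2) x j b 0

theorem dv_add (a : Tn N e → S) (x : Pt N S) (j : Fin k) (b b' : Fin (N j + 1) → S) :
    dv a x j (fun i => b i + b' i) = dv a x j b + dv a x j b' :=
  (Pool.Agent.Helper76.M.dvL a x j).map_add b b'

theorem dv_smul (a : Tn N e → S) (x : Pt N S) (j : Fin k) (u : S) (b : Fin (N j + 1) → S) :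
    dv a x j (fun i => u * b i) = u * dv a x j b :=
  (Pool.Agent.Helper76.M.dvL a x j).map_smul u b

theorem dv_eq_sum (a : Tn N e → S) (x : Pt N S) (j : Fin k) (b : Fin (N j + 1) → S) :
    dv a x j b = ∑ i, b i * dv a x j (Pi.single i 1) := by
  have h1 : b = ∑ i, b i • (Pi.single i (1 : S) : Fin (N j + 1) → S) := by
    funext i
    simp [Finset.sum_apply, Pi.single_apply]
  have h2 := congrArg (Pool.Agent.Helper76.M.dvL a x j) h1
  rw [map_sum] at h2
  refine h2.trans (Finset.sum_congr rfl fun i _ => ?_)
  rw [map_smul, smul_eq_mul]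
  rfl

theorem euler (a : Tn N e → S) (x : Pt N S) (j : Fin k) :
    dv a x j (x j) = (e j : S) * fv a x := Pool.Agent.Helper76.M.eul a x j

/-- The factor `j` separated. -/
theorem tv_sep (a : Tn N e → S) (X : ∀ r, Fin (e r) → Fin (N r + 1) → S) (j : Fin k) :
    tv a X = ∑ m : Tn N e, a m * ((∏ t, X j t (m j t)) *
      ∏ r ∈ Finset.univ.erase j, ∏ t, X r t (m r t)) := by
  unfold tv
  refine Finset.sum_congr rfl fun m _ => ?_
  rw [← Finset.mul_prod_erase Finset.univ (fun r => ∏ t, X r t (m r t)) (Finset.mem_univ j)]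

theorem fv_update (a : Tn N e → S) (x : Pt N S) (j : Fin k) (y : Fin (N j + 1) → S) :
    fv a (Function.update x j y) = ∑ m : Tn N e, a m * ((∏ t, y (m j t)) *
      ∏ r ∈ Finset.univ.erase j, ∏ t, x r (m r t)) := by
  unfold fv
  rw [tv_sep a _ j]
  refine Finset.sum_congr rfl fun m _ => ?_
  congr 2
  · rw [Function.update_self]
  · refine Finset.prod_congr rfl fun r hr => ?_
    rw [Function.update_of_ne (Finset.ne_of_mem_erase hr)]

theorem tv_slot (a : Tn N e → S) (x : Pt N S) (j : Fin k) (t : Fin (e j))
    (b : Fin (N j + 1) → S) :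
    tv a (slot e x j t b) = ∑ m : Tn N e, a m *
      ((∏ t', Function.update (fun _ => x j) t b t' (m j t')) *
      ∏ r ∈ Finset.univ.erase j, ∏ t, x r (m r t)) := by
  rw [tv_sep a _ j]
  refine Finset.sum_congr rfl fun m _ => ?_
  unfold slot
  congr 2
  · rw [Function.update_self]
  · refine Finset.prod_congr rfl fun r hr => ?_
    rw [Function.update_of_ne (Finset.ne_of_mem_erase hr)]

theorem fv_scale (a : Tn N e → S) (x : Pt N S) (j : Fin k) (u : S) :
    fv a (Function.update x j fun i => u * x j i) = u ^ e j * fv a x := by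
  have h1 : fv a x = fv a (Function.update x j (x j)) := by rw [Function.update_eq_self]
  rw [h1, fv_update, fv_update, Finset.mul_sum]
  refine Finset.sum_congr rfl fun m _ => ?_
  rw [Finset.prod_mul_distrib, Finset.prod_const, Finset.card_univ, Fintype.card_fin]
  ring

theorem fv_one (a : Tn N e → S) (x : Pt N S) (j : Fin k) (h : e j = 1) (b : Fin (N j + 1) → S) :
    fv a (Function.update x j b) = dv a x j b := by
  have hsub : Subsingleton (Fin (e j)) := by
    rw [h]
    infer_instance
  let t0 : Fin (e j) := ⟨0, by omega⟩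
  have huniv : (Finset.univ : Finset (Fin (e j))) = {t0} := by
    ext t
    simp [Subsingleton.elim t t0]
  unfold dv
  rw [huniv, Finset.sum_singleton, fv_update, tv_slot]
  refine Finset.sum_congr rfl fun m _ => ?_
  congr 2
  refine Finset.prod_congr rfl fun t _ => ?_
  rw [Subsingleton.elim t t0, Function.update_self]

theorem fv_two (a : Tn N e → S) (x : Pt N S) (j : Fin k) (h : e j = 2) (u w : S)
    (b : Fin (N j + 1) → S) :
    fv a (Function.update x j fun i => u * x j i + w * b i) =
      u ^ 2 * fv a x + u * w * dv a x j b + w ^ 2 * fv a (Function.update x j b) := by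
  have h1 : fv a x = fv a (Function.update x j (x j)) := by rw [Function.update_eq_self]
  let t0 : Fin (e j) := ⟨0, by omega⟩
  let t1 : Fin (e j) := ⟨1, by omega⟩
  have h01 : t0 ≠ t1 := fun h => by simpa [t0, t1] using congrArg Fin.val h
  have huniv : (Finset.univ : Finset (Fin (e j))) = {t0, t1} := by
    ext t
    simp only [Finset.mem_univ, Finset.mem_insert, Finset.mem_singleton, true_iff]
    have := t.2
    rcases Nat.lt_or_ge t.val 1 with h2 | h2
    · left
      exact Fin.ext (by show t.val = 0; omega)
    · right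
      exact Fin.ext (by show t.val = 1; omega)
  have hprod : ∀ f : Fin (e j) → S, ∏ t, f t = f t0 * f t1 := fun f => by
    rw [huniv, Finset.prod_pair h01]
  unfold dv
  rw [h1, huniv, Finset.sum_pair h01]
  simp only [fv_update, tv_slot, hprod, Function.update_self, Function.update_of_ne h01,
    Function.update_of_ne h01.symm]
  simp only [Finset.mul_sum, ← Finset.sum_add_distrib]
  refine Finset.sum_congr rfl fun m _ => ?_
  ring

theorem dv_hom {σ : Type*} (a : Tn N e → MvPolynomial σ S) (ha : ∀ m, (a m).IsHomogeneous 0)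
    (x : Pt N (MvPolynomial σ S)) (r : Fin k) (hr : ∀ i, (x r i).IsHomogeneous 1)
    (hx : ∀ j, j ≠ r → ∀ i, (x j i).IsHomogeneous 0) (j : Fin k) (hj : j ≠ r)
    (b : Fin (N j + 1) → MvPolynomial σ S) (hb : ∀ i, (b i).IsHomogeneous 0) :
    (dv a x j b).IsHomogeneous (e r) := by
  unfold dv
  refine IsHomogeneous.sum _ _ _ fun t _ => ?_
  unfold tv
  refine IsHomogeneous.sum _ _ _ fun m _ => ?_
  have h1 : (∏ r', ∏ t', slot e x j t b r' t' (m r' t')).IsHomogeneous
      (∑ r', if r' = r then e r' else 0) := by
    refine IsHomogeneous.prod _ _ _ fun r' _ => ?_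
    by_cases h : r' = r
    · subst h
      rw [if_pos rfl]
      have h2 : (∏ t', slot e x j t b r' t' (m r' t')).IsHomogeneous (∑ _t' : Fin (e r'), 1) := by
        refine IsHomogeneous.prod _ _ _ fun t' _ => ?_
        unfold slot
        rw [Function.update_of_ne hj.symm]
        exact hr _
      simpa using h2
    · rw [if_neg h]
      have h2 : (∏ t', slot e x j t b r' t' (m r' t')).IsHomogeneous (∑ _t' : Fin (e r'), 0) := by
        refine IsHomogeneous.prod _ _ _ fun t' _ => ?_
        unfold slot
        by_cases h3 : r' = j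
        · subst h3
          rw [Function.update_self]
          by_cases h4 : t' = t
          · subst h4
            rw [Function.update_self]
            exact hb _
          · rw [Function.update_of_ne h4]
            exact hx _ hj _
        · rw [Function.update_of_ne h3]
          exact hx _ h _
      simpa using h2
  have h3 : (∑ r', if r' = r then e r' else 0) = e r := by simp
  rw [h3] at h1
  have h4 := (ha m).mul h1
  rwa [zero_add] at h4

end Pool.Agent.Helper28.M.A
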