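import Mathlib
import Pool.Agent.Helper47.M.Defs

/-!
# Theorem M: places
-/

set_option autoImplicit false

namespace Pool.Agent.Helper28.M

open MvPolynomial Pool.Agent.Helper47.M

variable {K E : Type} [Field K] [Field E] [Algebra K E]

/-- Normalization of a vector, for a valuation ring. -/
theorem scale_of {E : Type} [Field E] (O : ValuationSubring E) {n : ℕ} (y : Fin n → E)
    (hy : y ≠ 0) : ∃ u : E, u ≠ 0 ∧ (∀ i, u * y i ∈ O) ∧ ∃ i, u * y i = 1 := by
  obtain ⟨j, hj⟩ : ∃ j, y j ≠ 0 := by
    by_contra h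
    push Not at h
    exact hy (funext h)
  obtain ⟨i0, -, hi0⟩ := Finset.exists_max_image (Finset.univ : Finset (Fin n))
    (fun i => O.valuation (y i)) ⟨j, Finset.mem_univ j⟩
  have h0 : y i0 ≠ 0 := by
    intro h
    have h1 := hi0 j (Finset.mem_univ j)
    simp only [h, map_zero] at h1
    exact hj ((map_eq_zero _).1 (le_antisymm h1 zero_le))
  refine ⟨(y i0)⁻¹, inv_ne_zero h0, fun i => ?_, i0, inv_mul_cancel₀ h0⟩
  rw [← O.valuation_le_one_iff, map_mul, map_inv₀]
  rw [inv_mul_le_iff₀ ((Valuation.pos_iff _).2 h0), mul_one]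
  exact hi0 i (Finset.mem_univ i)

variable {B : IntermediateField K E} {R : Type} [Field R] [Algebra K R]

/-- Normalization of a vector. -/
theorem place_scale (v : Place B R) {n : ℕ} (y : Fin n → E) (hy : y ≠ 0) :
    ∃ u : E, u ≠ 0 ∧ (∀ i, u * y i ∈ v.O) ∧ ∃ i, u * y i = 1 := scale_of v.O y hy

theorem red_of_mem (v : Place B R) (y : E) (h : y ∈ v.O) : v.red y = v.pi ⟨y, h⟩ := by
  unfold Place.red
  rw [dif_pos h]

theorem red_of_base (v : Place B R) (b : B) : v.red b = v.res b :=
  red_of_mem v b (v.inc b b.2)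

theorem aeval_scale {B E : Type*} [Field B] [Field E] [Algebra B E] {n : ℕ} (ξ : Fin n → E)
    (p : MvPolynomial (Fin n) B) (δ : ℕ) (hp : p.IsHomogeneous δ) (u : E) :
    aeval (fun i => u * ξ i) p = u ^ δ * aeval ξ p := by
  rw [aeval_def, aeval_def, eval₂_eq', eval₂_eq', Finset.mul_sum]
  refine Finset.sum_congr rfl fun m hm => ?_
  have h1 : ∑ i, m i = δ := by
    have h2 := hp (mem_support_iff.1 hm)
    rw [← h2, ← Finsupp.degree_eq_sum, Finsupp.degree_eq_weight_one]
    rfl
  simp only [mul_pow]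
  rw [Finset.prod_mul_distrib, Finset.prod_pow_eq_pow_sum, h1]
  ring

/-- There is a place with a zero of the form `p`. -/
theorem exists_place (B : IntermediateField K E) {n : ℕ} (ξ : Fin n → E)
    (htr : ∃ i j, ξ j ≠ 0 ∧ Transcendental B (ξ i / ξ j)) (p : MvPolynomial (Fin n) B) (δ : ℕ)
    (hδ : 0 < δ) (hp : p.IsHomogeneous δ) :
    ∃ (R : Type) (_ : Field R) (_ : Algebra K R) (v : Place B R) (u : E), u ≠ 0 ∧
      (∀ i, u * ξ i ∈ v.O) ∧ (∃ i, u * ξ i = 1) ∧
      eval₂ v.res (fun i => v.red (u * ξ i)) p = 0 := by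
  obtain ⟨i1, j1, hj1, htr⟩ := htr
  have hξ0 : ξ ≠ 0 := fun h => hj1 (congrFun h j1)
  -- homogeneity
  have hhom : ∀ u : E, aeval (fun i => u * ξ i) p = u ^ δ * aeval ξ p := aeval_scale ξ p δ hp
  by_cases hpξ : aeval ξ p = 0
  · obtain ⟨u, hu, h1, h2⟩ := scale_of (⊤ : ValuationSubring E) ξ hξ0
    let v : Place B E :=
      { O := ⊤
        pi := (⊤ : ValuationSubring E).subtype
        loc := fun a ha => by
          rw [isUnit_iff_exists_inv]
          exact ⟨⟨(a : E)⁻¹, trivial⟩, Subtype.ext (mul_inv_cancel₀ ha)⟩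
        inc := fun b _ => trivial
        alg := fun a => rfl }
    have hred : ∀ y : E, v.red y = y := fun y => red_of_mem v y trivial
    refine ⟨E, inferInstance, inferInstance, v, u, hu, h1, h2, ?_⟩
    have h3 : eval₂ v.res (fun i => v.red (u * ξ i)) p = aeval (fun i => u * ξ i) p := by
      simp only [hred]
      rfl
    rw [h3, hhom, hpξ, mul_zero]
  · -- a valuation ring with an element outside
    obtain ⟨O, hBO, i, hi⟩ : ∃ O : ValuationSubring E, (∀ b ∈ B, b ∈ O) ∧
        ∃ i, ξ i ^ δ / aeval ξ p ∉ O := by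
      by_contra hcon
      push Not at hcon
      have hint : ∀ i, IsAlgebraic B (ξ i ^ δ / aeval ξ p) := by
        intro i
        have h1 : ξ i ^ δ / aeval ξ p ∈
            (⨅ V : {V : ValuationSubring E // (B : Set E) ⊆ V.toSubring}, V.1.toSubring) := by
          rw [Subring.mem_iInf]
          rintro ⟨V, hV⟩
          exact hcon V (fun b hb => hV hb) i
        rw [iInf_valuationSubring_superset] at h1
        have h2 : IsIntegral (Subring.closure (B : Set E)) (ξ i ^ δ / aeval ξ p) := h1
        have h3 : Subring.closure (B : Set E) = B.toSubring :=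
          Subring.closure_eq B.toSubring
        rw [h3] at h2
        have h4 : IsIntegral B (ξ i ^ δ / aeval ξ p) := h2
        exact h4.isAlgebraic
      apply htr
      have h5 : IsAlgebraic B ((ξ i1 / ξ j1) ^ δ) := by
        have h6 : (ξ i1 / ξ j1) ^ δ = (ξ i1 ^ δ / aeval ξ p) * (ξ j1 ^ δ / aeval ξ p)⁻¹ := by
          rw [div_pow]
          field_simp
        rw [h6]
        exact (hint i1).mul (hint j1).inv
      exact h5.of_pow hδ
    obtain ⟨u, hu, h1, h2⟩ := scale_of O ξ hξ0
    let κ : K →+* O := (algebraMap K E).codRestrict O.toSubring fun a => hBO _ (B.algebraMap_mem a)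
    let ρ : O →+* IsLocalRing.ResidueField O := IsLocalRing.residue O
    let alg : Algebra K (IsLocalRing.ResidueField O) := (ρ.comp κ).toAlgebra
    let v : Place B (IsLocalRing.ResidueField O) :=
      { O := O
        pi := ρ
        loc := fun a ha => by
          by_contra hna
          exact ha ((IsLocalRing.residue_eq_zero_iff a).2 ((IsLocalRing.mem_maximalIdeal a).2 hna))
        inc := hBO
        alg := fun a => rfl }
    refine ⟨IsLocalRing.ResidueField O, inferInstance, alg, v, u, hu, h1, h2, ?_⟩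
    let β : B →+* O := (B.val : B →+* E).codRestrict O.toSubring fun b => hBO b b.2
    have h3 : eval₂ v.res (fun i => v.red (u * ξ i)) p =
        ρ (eval₂ β (fun i => (⟨u * ξ i, h1 i⟩ : O)) p) := by
      rw [hom_eval₂]
      have e1 : v.res = ρ.comp β := rfl
      rw [e1]
      congr 1
      funext i
      exact red_of_mem v _ (h1 i)
    rw [h3, IsLocalRing.residue_eq_zero_iff]
    have h4 : (O.subtype (eval₂ β (fun i => (⟨u * ξ i, h1 i⟩ : O)) p) : E) =
        aeval (fun i => u * ξ i) p := by
      rw [hom_eval₂]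
      rfl
    rw [O.valuation_lt_one_iff]
    have h5 : ((eval₂ β (fun i => (⟨u * ξ i, h1 i⟩ : O)) p : O) : E) =
        (u * ξ i) ^ δ * (ξ i ^ δ / aeval ξ p)⁻¹ := by
      refine h4.trans ?_
      rw [hhom]
      by_cases h6 : ξ i = 0
      · exfalso
        apply hi
        rw [h6, zero_pow hδ.ne', zero_div]
        exact O.zero_mem
      · field_simp
        ring
    rw [h5, map_mul, map_pow, map_inv₀]
    have h7 : O.valuation (u * ξ i) ≤ 1 := (O.valuation_le_one_iff _).2 (h1 i)
    have h8 : 1 < O.valuation (ξ i ^ δ / aeval ξ p) := by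
      rw [← O.valuation_le_one_iff, not_le] at hi
      exact hi
    calc O.valuation (u * ξ i) ^ δ * (O.valuation (ξ i ^ δ / aeval ξ p))⁻¹
        ≤ 1 * (O.valuation (ξ i ^ δ / aeval ξ p))⁻¹ := by
          gcongr
          exact pow_le_one' h7 δ
      _ < 1 := by
          rw [one_mul]
          exact inv_lt_one_of_one_lt₀ h8

end Pool.Agent.Helper28.M
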