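import Mathlib
import Pool.Agent.Helper28.M.P1
import Pool.Agent.Helper28.M.A

/-!
# Theorem M: the point of the residue field
-/

set_option autoImplicit false

namespace Pool.Agent.Helper28.M

open MvPolynomial Pool.Agent.Helper47.M Pool.Agent.Helper28.M.A

variable {k l : ℕ} {N : Fin k → ℕ} {d : Fin l → Fin k → ℕ}

variable {K E : Type} [Field K] [Field E] [Algebra K E] {R : Type} [Field R] [Algebra K R]

theorem mem_Bf (x : Pt N E) (J : Set (Fin k)) (j : Fin k) (hj : j ∉ J) (i : Fin (N j + 1)) :
    x j i ∈ Bf K x J := IntermediateField.subset_adjoin _ _ ⟨j, hj, i, rfl⟩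

/-- The structure map of the valuation ring. -/
def kap {B : IntermediateField K E} (v : Place B R) : K →+* v.O :=
  (algebraMap K E).codRestrict v.O.toSubring fun a => v.inc _ (B.algebraMap_mem a)

theorem pi_kap {B : IntermediateField K E} (v : Place B R) (a : K) :
    v.pi (kap v a) = algebraMap K R a := v.alg a

theorem coe_kap {B : IntermediateField K E} (v : Place B R) (a : K) :
    ((kap v a : v.O) : E) = algebraMap K E a := rfl

/-- Reduction of a zero with integral coordinates. -/
theorem Fm_red {B : IntermediateField K E} (v : Place B R) (c : Tx N d → K) (y : Pt N E)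
    (hy : ∀ j i, y j i ∈ v.O) (i : Fin l)
    (h : Fm (fun e => algebraMap K E (c e)) y i = 0) :
    Fm (fun e => algebraMap K R (c e)) (fun j i => v.red (y j i)) i = 0 := by
  let y' : Pt N v.O := fun j i => ⟨y j i, hy j i⟩
  have h1 : v.O.subtype (Fm (fun e => kap v (c e)) y' i) =
      Fm (fun e => algebraMap K E (c e)) y i := fv_map _ _ _
  have h2 : v.pi (Fm (fun e => kap v (c e)) y' i) =
      Fm (fun e => algebraMap K R (c e)) (fun j i => v.red (y j i)) i := by
    refine (fv_map _ _ _).trans ?_
    unfold Fm
    congr 1
    · funext m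
      exact pi_kap v _
    · funext j i
      exact (red_of_mem v _ (hy j i)).symm
  have h3 : Fm (fun e => kap v (c e)) y' i = 0 := by
    apply v.O.subtype_injective
    rw [h1, h, map_zero]
  rw [← h2, h3, map_zero]

theorem Fm_scale (c : Tx N d → E) (x : Pt N E) (r : Fin k) (u : E) (i : Fin l)
    (h : Fm c x i = 0) : Fm c (Function.update x r fun i => u * x r i) i = 0 := by
  unfold Fm at h ⊢
  rw [fv_scale, h, mul_zero]

/-- The point of the residue field. -/
theorem genPt_red (c : Tx N d → K) (x : Pt N E) (hx : FullPt K c x) (r : Fin k)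
    (v : Place (Bf K x {r}) R) (u : E) (hu : u ≠ 0) (h1 : ∀ i, u * x r i ∈ v.O)
    (h2 : ∃ i, u * x r i = 1) :
    GenPt K c r (Function.update (fun j i => v.red (x j i)) r fun i => v.red (u * x r i)) := by
  have hone : v.red 1 = 1 := by
    rw [red_of_mem v 1 v.O.one_mem]
    exact v.pi.map_one
  have hup : (Function.update (fun j i => v.red (x j i)) r fun i => v.red (u * x r i)) =
      fun j i => v.red ((Function.update x r fun i => u * x r i) j i) := by
    funext j i
    by_cases hj : j = r
    · subst hj
      rw [Function.update_self, Function.update_self]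
    · rw [Function.update_of_ne hj, Function.update_of_ne hj]
  refine ⟨fun i => ?_, fun j hj => ?_, ?_, ?_⟩
  · rw [hup]
    refine Fm_red v c _ (fun j i => ?_) i (Fm_scale _ _ _ _ _ (hx.eq i))
    by_cases hj : j = r
    · subst hj
      rw [Function.update_self]
      exact h1 i
    · rw [Function.update_of_ne hj]
      exact v.inc _ (mem_Bf x _ j (by simpa using hj) i)
  · rw [Function.update_of_ne hj, hx.one j, hone]
  · obtain ⟨i, hi⟩ := h2
    exact ⟨i, by rw [Function.update_self, hi, hone]⟩
  · let w : {q : Vr N // q.1 ≠ r} → Bf K x {r} := fun q =>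
      ⟨x q.1.1 q.1.2.succ, mem_Bf x _ _ (by simpa using q.2) _⟩
    have hw : AlgebraicIndependent K w := by
      have h3 := hx.ind r
      exact AlgebraicIndependent.of_comp (Bf K x {r}).val (x := w) h3
    let ρ : Bf K x {r} →ₐ[K] R :=
      { v.res with commutes' := fun a => v.alg a }
    have hρ : AlgebraicIndependent K (ρ ∘ w) := hw.map' (f := ρ) ρ.toRingHom.injective
    have he : (fun q : {q : Vr N // q.1 ≠ r} => (Function.update (fun j i => v.red (x j i)) r
        fun i => v.red (u * x r i) : Pt N R) q.1.1 q.1.2.succ) = ρ ∘ w := by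
      funext q
      rw [Function.update_of_ne q.2]
      exact red_of_base v (w q)
    rw [he]
    exact hρ

end Pool.Agent.Helper28.M
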