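import Mathlib
import Pool.Agent.Helper28.M.P2

/-!
# Theorem M: the involutions are trivial on the common functions
-/

set_option autoImplicit false

namespace Pool.Agent.Helper28.M

open MvPolynomial Pool.Agent.Helper47.M Pool.Agent.Helper28.M.A

variable {k l : ℕ} {N : Fin k → ℕ} {d : Fin l → Fin k → ℕ}

/-- The index of the affine coordinates of the factor `s`. -/
def emb {s : Fin k} (hs : N s = l) (e : Fin l) : Fin (N s + 1) := (Fin.cast hs.symm e).succ

section jac

variable {S : Type*} [CommRing S]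

/-- The Jacobian matrix in the factor `s`. -/
def Jm (c : Tx N d → S) (x : Pt N S) (s : Fin k) (hs : N s = l) : Matrix (Fin l) (Fin l) S :=
  Matrix.of fun i e => dF c x s (Pi.single (emb hs e) 1) i

theorem dF_map {S' : Type*} [CommRing S'] (f : S →+* S') (c : Tx N d → S) (x : Pt N S) (j : Fin k)
    (b : Fin (N j + 1) → S) (i : Fin l) :
    f (dF c x j b i) = dF (fun e => f (c e)) (fun r i => f (x r i)) j (fun i => f (b i)) i :=
  dv_map f _ x j b

theorem Jm_map {S' : Type*} [CommRing S'] (f : S →+* S') (c : Tx N d → S) (x : Pt N S) (s : Fin k)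
    (hs : N s = l) :
    f (Jm c x s hs).det = (Jm (fun e => f (c e)) (fun r i => f (x r i)) s hs).det := by
  rw [RingHom.map_det]
  congr 1
  ext i e
  show f (dF c x s (Pi.single (emb hs e) 1) i) =
    dF (fun e => f (c e)) (fun r i => f (x r i)) s (Pi.single (emb hs e) (1 : S')) i
  rw [dF_map]
  congr 1
  funext i'
  by_cases h : i' = emb hs e
  · subst h
    simp
  · rw [Pi.single_eq_of_ne h, Pi.single_eq_of_ne h, map_zero]

/-- A singular Jacobian matrix gives a direction. -/
theorem exists_dir {R : Type*} [Field R] (c : Tx N d → R) (x : Pt N R) (s : Fin k) (hs : N s = l)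
    (h : (Jm c x s hs).det = 0) :
    ∃ b : Fin (N s + 1) → R, b ≠ 0 ∧ b 0 = 0 ∧ ∀ i, dF c x s b i = 0 := by
  obtain ⟨t, ht, h1⟩ := Matrix.exists_mulVec_eq_zero_iff.2 h
  refine ⟨Fin.cons 0 fun e => t (Fin.cast hs e), ?_, rfl, fun i => ?_⟩
  · intro h0
    apply ht
    funext e
    have h2 := congrFun h0 (Fin.cast hs.symm e).succ
    rw [Fin.cons_succ] at h2
    simpa using h2
  · unfold dF
    rw [dv_eq_sum, Fin.sum_univ_succ, Fin.cons_zero, zero_mul, zero_add]
    have h2 : ∑ e, Jm c x s hs i e * t e = 0 := congrFun h1 i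
    rw [← h2, ← (finCongr hs.symm).sum_comp]
    refine Finset.sum_congr rfl fun e _ => ?_
    rw [Fin.cons_succ, mul_comm]
    rfl

end jac

/-- The kernel of the linear forms. -/
theorem ker_lin {R : Type*} [Field R] {n l : ℕ} (hn : n = l) (i0 : Fin l)
    (T : Fin l → (Fin (n + 1) → R) →ₗ[R] R)
    (hT : ∀ lam : Fin l → R, lam i0 = 0 → (∀ b, ∑ i, lam i * T i b = 0) → lam = 0)
    (x b y : Fin (n + 1) → R) (hb : b ≠ 0) (hb0 : b 0 = 0) (hx0 : x 0 ≠ 0)
    (hx : ∀ i, i ≠ i0 → T i x = 0) (hb1 : ∀ i, i ≠ i0 → T i b = 0)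
    (hy : ∀ i, i ≠ i0 → T i y = 0) : ∃ α β : R, ∀ i, y i = α * x i + β * b i := by
  classical
  subst hn
  let U : (Fin (n + 1) → R) →ₗ[R] (Fin n → R) :=
    LinearMap.pi fun i => if i = i0 then LinearMap.proj 0 else T i
  have hU0 : ∀ b, U b i0 = b 0 := fun b => by
    show (if i0 = i0 then LinearMap.proj 0 else T i0 : (Fin (n + 1) → R) →ₗ[R] R) b = b 0
    rw [if_pos rfl]
    rfl
  have hU : ∀ b i, i ≠ i0 → U b i = T i b := fun b i hi => by
    show (if i = i0 then LinearMap.proj 0 else T i : (Fin (n + 1) → R) →ₗ[R] R) b = T i b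
    rw [if_neg hi]
  have hsurj : LinearMap.range U = ⊤ := by
    by_contra hne
    obtain ⟨f, hf, hf0⟩ := Submodule.exists_le_ker_of_lt_top _ (lt_top_iff_ne_top.2 hne)
    apply hf
    have hlin : ∀ z : Fin n → R, f z = ∑ i, f (Pi.single i 1) * z i := by
      intro z
      have h2 : z = ∑ i, z i • (Pi.single i (1 : R) : Fin n → R) := by
        funext j
        simp [Finset.sum_apply, Pi.single_apply]
      conv_lhs => rw [h2, map_sum]
      refine Finset.sum_congr rfl fun i _ => ?_
      rw [map_smul, smul_eq_mul, mul_comm]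
    have hz : ∀ b, ∑ i, f (Pi.single i 1) * U b i = 0 := fun b => by
      rw [← hlin]
      exact hf0 ⟨b, rfl⟩
    have hsplit : ∀ b, f (Pi.single i0 1) * b 0 +
        ∑ i, (if i = i0 then 0 else f (Pi.single i 1)) * T i b = 0 := by
      intro b
      have h3 := hz b
      rw [← Finset.add_sum_erase _ _ (Finset.mem_univ i0), hU0] at h3
      rw [← Finset.add_sum_erase (a := i0) Finset.univ
          (fun i => (if i = i0 then 0 else f (Pi.single i 1)) * T i b) (Finset.mem_univ i0),
        if_pos rfl, zero_mul, zero_add]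
      refine Eq.trans ?_ h3
      congr 1
      refine Finset.sum_congr rfl fun i hi => ?_
      rw [hU b i (Finset.ne_of_mem_erase hi), if_neg (Finset.ne_of_mem_erase hi)]
    have h0 : f (Pi.single i0 1) = 0 := by
      have h1 := hsplit x
      have h2 : ∑ i, (if i = i0 then 0 else f (Pi.single i 1)) * T i x = 0 := by
        refine Finset.sum_eq_zero fun i _ => ?_
        by_cases hi : i = i0
        · rw [if_pos hi, zero_mul]
        · rw [hx i hi, mul_zero]
      rw [h2, add_zero] at h1
      exact (mul_eq_zero.1 h1).resolve_right hx0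
    have h1 := hT (fun i => if i = i0 then 0 else f (Pi.single i 1)) (if_pos rfl) fun b => by
      have := hsplit b
      rwa [h0, zero_mul, zero_add] at this
    ext i
    simp only [LinearMap.coe_comp, Function.comp_apply, LinearMap.coe_single, LinearMap.zero_apply]
    by_cases hi : i = i0
    · rw [hi]
      exact h0
    · have h3 := congrFun h1 i
      simp only [if_neg hi] at h3
      exact h3
  have hker : Module.finrank R (LinearMap.ker U) = 1 := by
    have h1 := U.finrank_range_add_finrank_ker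
    rw [hsurj, finrank_top, Module.finrank_fin_fun, Module.finrank_fin_fun] at h1
    omega
  have hmem : ∀ z : Fin (n + 1) → R, z 0 = 0 → (∀ i, i ≠ i0 → T i z = 0) →
      z ∈ LinearMap.ker U := by
    intro z hz0 hz
    rw [LinearMap.mem_ker]
    funext i
    by_cases hi : i = i0
    · rw [hi, hU0, hz0]
      rfl
    · rw [hU z i hi, hz i hi]
      rfl
  let b' : LinearMap.ker U := ⟨b, hmem b hb0 hb1⟩
  have hb' : b' ≠ 0 := fun h => hb (congrArg Subtype.val h)
  have hz : y - (y 0 / x 0) • x ∈ LinearMap.ker U := by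
    apply hmem
    · simp only [Pi.sub_apply, Pi.smul_apply, smul_eq_mul]
      field_simp
      ring
    · intro i hi
      rw [map_sub, map_smul, hx i hi, hy i hi, smul_zero, sub_zero]
  obtain ⟨β, hβ⟩ := (finrank_eq_one_iff_of_nonzero' b' hb').1 hker ⟨_, hz⟩
  refine ⟨y 0 / x 0, β, fun i => ?_⟩
  have h1 := congrFun (congrArg Subtype.val hβ) i
  have h2 : β * b i = y i - y 0 / x 0 * x i := h1
  rw [h2]
  ring

end Pool.Agent.Helper28.M
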