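import Mathlib
import Pool.Agent.Helper28.M.P3

/-!
# Theorem M: the involutions are trivial on the common functions
-/

set_option autoImplicit false

namespace Pool.Agent.Helper28.M

open MvPolynomial Pool.Agent.Helper47.M Pool.Agent.Helper28.M.A

variable {k l : ℕ} {N : Fin k → ℕ} {d : Fin l → Fin k → ℕ}

theorem det_hom {σ S : Type*} [CommRing S] (M : Matrix (Fin l) (Fin l) (MvPolynomial σ S))
    (δ : Fin l → ℕ) (h : ∀ i e, (M i e).IsHomogeneous (δ i)) :
    M.det.IsHomogeneous (∑ i, δ i) := by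
  rw [Matrix.det_apply]
  apply IsHomogeneous.sum
  intro τ _
  have h1 : (∏ i, M (τ i) i).IsHomogeneous (∑ i, δ i) := by
    rw [← Equiv.sum_comp τ]
    exact IsHomogeneous.prod _ _ _ fun i _ => h (τ i) i
  rcases Int.units_eq_one_or (Equiv.Perm.sign τ) with h2 | h2
  · rw [h2, one_smul]
    exact h1
  · rw [h2, Units.neg_smul, one_smul]
    exact h1.neg

/-- The derivative as a linear map. -/
def dlin {S : Type*} [CommRing S] (c : Tx N d → S) (x : Pt N S) (s : Fin k) (i : Fin l) :
    (Fin (N s + 1) → S) →ₗ[S] S where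
  toFun b := dF c x s b i
  map_add' b b' := dv_add _ _ _ b b'
  map_smul' u b := dv_smul _ _ _ u b

variable {K E : Type} [Field K] [Field E] [Algebra K E]

/-- The determinant of the Jacobian matrix in the factor `s`, as a form in the coordinates of the
factor `r`. -/
theorem exists_jac_form (h : Ty N d) (c : Tx N d → K) (x : Pt N E) (r s : Fin k) (hrs : s ≠ r)
    (hs : N s = l) :
    ∃ p : MvPolynomial (Fin (N r + 1)) (Bf K x {r}), p.IsHomogeneous (N r + 1) ∧
      ∀ (R : Type) [Field R] [Algebra K R] (v : Place (Bf K x {r}) R) (u : E),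
        eval₂ v.res (fun i => v.red (u * x r i)) p =
        (Jm (fun e => algebraMap K R (c e))
          (Function.update (fun j i => v.red (x j i)) r fun i => v.red (u * x r i)) s hs).det := by
  classical
  let B := Bf K x {r}
  let xb : Pt N B := fun j i => if hj : j ≠ r then ⟨x j i, mem_Bf x _ j (by simpa using hj) i⟩ else 0
  have hxb : ∀ j, j ≠ r → ∀ i, (xb j i : E) = x j i := fun j hj i => by
    simp only [xb, dif_pos hj]
  let Y : Pt N (MvPolynomial (Fin (N r + 1)) B) :=
    Function.update (fun j i => C (xb j i)) r fun i => X i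
  let cA : Tx N d → MvPolynomial (Fin (N r + 1)) B := fun e => C (algebraMap K B (c e))
  refine ⟨(Jm cA Y s hs).det, ?_, fun R _ _ v u => ?_⟩
  · have h3 : (Jm cA Y s hs).det.IsHomogeneous (∑ i, d i r) := ?_
    · convert h3 using 1
      exact (h.sum r).symm
    apply det_hom
    intro i e
    apply dv_hom
    · exact fun m => isHomogeneous_C _ _
    · intro i
      simp only [Y, Function.update_self]
      exact isHomogeneous_X _ _
    · intro j hj i
      simp only [Y, Function.update_of_ne hj]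
      exact isHomogeneous_C _ _
    · exact hrs
    · intro i'
      by_cases hi : i' = emb hs e
      · subst hi
        rw [Pi.single_eq_same]
        exact isHomogeneous_one _ _
      · rw [Pi.single_eq_of_ne hi]
        exact isHomogeneous_zero _ _ _
  · have h1 := Jm_map (eval₂Hom v.res fun i => v.red (u * x r i)) cA Y s hs
    rw [coe_eval₂Hom] at h1
    rw [h1]
    have e1 : (fun e => eval₂ v.res (fun i => v.red (u * x r i)) (cA e)) =
        fun e => algebraMap K R (c e) := by
      funext e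
      simp only [cA, eval₂_C]
      exact v.alg (c e)
    have e2 : (fun j i => eval₂ v.res (fun i => v.red (u * x r i)) (Y j i)) =
        (Function.update (fun j i => v.red (x j i)) r fun i => v.red (u * x r i) : Pt N R) := by
      funext j i
      by_cases hj : j = r
      · subst hj
        simp only [Y, Function.update_self, eval₂_X]
      · simp only [Y, Function.update_of_ne hj, eval₂_C]
        rw [← red_of_base, hxb j hj]
    rw [e1, e2]

/-- The involutions are trivial on the common functions. -/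
theorem inv_fixed [CharZero K] (h : Ty N d) (c : Tx N d → K) (hc : AllNice K c) (x : Pt N E)
    (hx : FullPt K c x) (r s : Fin k) (hr : N r = l + 1) (hs : N s = l) (σ : E ≃ₐ[K] E)
    (hσ : ∀ j, j ≠ s → ∀ i, σ (x j i) = x j i) (φ : E) (h1 : φ ∈ Bf K x {r})
    (h2 : σ φ ∈ Bf K x {r}) : σ φ = φ := by
  have hrs : s ≠ r := by
    rintro rfl
    omega
  obtain ⟨p, hp, hpe⟩ := exists_jac_form h c x r s hrs hs
  obtain ⟨e1, he1⟩ := hx.tr r hr
  obtain ⟨R, _, _, v, u, hu, hO, hone, hz⟩ := exists_place (Bf K x {r}) (x r)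
    ⟨e1, 0, by rw [hx.one r]; exact one_ne_zero, by rwa [hx.one r, div_one]⟩ p (N r + 1)
    (by omega) hp
  rw [hpe] at hz
  set x' : Pt N R := Function.update (fun j i => v.red (x j i)) r fun i => v.red (u * x r i)
    with hx'
  have hgen : GenPt K c r x' := genPt_red c x hx r v u hu hO hone
  obtain ⟨hnice, -⟩ := hc r hr R x' hgen
  obtain ⟨b, hb, hb0, hb1⟩ := exists_dir _ _ _ _ hz
  obtain ⟨i0, hi0, hi1⟩ := Pool.Agent.Helper76.M.exists_two h s hs
  have hred1 : v.red 1 = 1 := by
    rw [red_of_mem v 1 v.O.one_mem]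
    exact v.pi.map_one
  have hs' : ∀ i, x' s i = v.red (x s i) := fun i => by rw [hx', Function.update_of_ne hrs]
  have hs0 : x' s 0 = 1 := by rw [hs', hx.one s, hred1]
  have hFb : Fm (fun e => algebraMap K R (c e)) (Function.update x' s b) i0 ≠ 0 := fun h0 =>
    hb (hnice.j3 s hs i0 hi0 b hb0 hb1 h0)
  -- the conjugate point
  have hsig : Function.update x s (fun i => σ (x s i)) = fun j i => σ (x j i) := by
    funext j i
    by_cases hj : j = s
    · subst hj
      rw [Function.update_self]
    · rw [Function.update_of_ne hj, hσ j hj]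
  have hF1 : ∀ i, Fm (fun e => algebraMap K E (c e))
      (Function.update x s fun i => σ (x s i)) i = 0 := by
    intro i
    have h3 : (σ : E →+* E) (Fm (fun e => algebraMap K E (c e)) x i) =
        Fm (fun e => algebraMap K E (c e)) (fun j i => σ (x j i)) i := by
      refine (fv_map _ _ _).trans ?_
      unfold Fm
      congr 1
      funext m
      exact σ.commutes _
    rw [hsig, ← h3, hx.eq i, map_zero]
  obtain ⟨u', hu', hO', hone'⟩ := place_scale v (fun i => σ (x s i)) (by
    intro h0
    have h3 := congrFun h0 0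
    simp only [hx.one s, map_one, Pi.zero_apply] at h3
    exact one_ne_zero h3)
  have hF2 : ∀ i, Fm (fun e => algebraMap K R (c e))
      (Function.update x' s fun i => v.red (u' * σ (x s i))) i = 0 := by
    intro i
    have h3 := Fm_scale _ _ s u' i (Fm_scale _ _ r u i (hF1 i))
    have h4 := Fm_red v c _ (fun j i => ?_) i h3
    · convert h4 using 2
      funext j i
      by_cases hj : j = s
      · subst hj
        simp only [Function.update_self, Function.update_of_ne hrs]
      · by_cases hj' : j = r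
        · subst hj'
          simp only [Function.update_self, Function.update_of_ne hrs.symm, hx']
        · simp only [Function.update_of_ne hj, Function.update_of_ne hj', hx']
    · by_cases hj : j = s
      · subst hj
        simp only [Function.update_self, Function.update_of_ne hrs]
        exact hO' i
      · by_cases hj' : j = r
        · subst hj'
          simp only [Function.update_self, Function.update_of_ne hrs.symm]
          exact hO i
        · simp only [Function.update_of_ne hj, Function.update_of_ne hj']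
          exact v.inc _ (mem_Bf x _ j (by simpa using hj') i)
  -- the kernel
  have hker : ∃ α β : R, ∀ i, v.red (u' * σ (x s i)) = α * x' s i + β * b i := by
    refine ker_lin hs i0 (dlin (fun e => algebraMap K R (c e)) x' s)
      (fun lam h3 h4 => hnice.j2 s hs i0 hi0 lam h3 h4) (x' s) b
      (fun i => v.red (u' * σ (x s i))) hb hb0 (by rw [hs0]; exact one_ne_zero)
      (fun i hi => ?_) (fun i _ => hb1 i) (fun i hi => ?_)
    · have h3 := euler (fun m => algebraMap K R (c ⟨i, m⟩)) x' s
      have h4 : fv (fun m => algebraMap K R (c ⟨i, m⟩)) x' = 0 := hgen.eq i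
      rw [h4, mul_zero] at h3
      exact h3
    · have h3 := hF2 i
      unfold Fm at h3
      rw [fv_one _ _ _ (hi1 i hi)] at h3
      exact h3
  obtain ⟨α, β, hαβ⟩ := hker
  have hβ : β = 0 := by
    have h3 := hF2 i0
    have h4 : (fun i => v.red (u' * σ (x s i))) = fun i => α * x' s i + β * b i := funext hαβ
    rw [h4] at h3
    unfold Fm at h3 hFb
    rw [fv_two _ _ _ hi0] at h3
    have h5 : fv (fun m => algebraMap K R (c ⟨i0, m⟩)) x' = 0 := hgen.eq i0
    have h6 : dv (fun m => algebraMap K R (c ⟨i0, m⟩)) x' s b = 0 := hb1 i0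
    rw [h5, h6, mul_zero, mul_zero, zero_add, zero_add] at h3
    have h7 := (mul_eq_zero.1 h3).resolve_right hFb
    exact pow_eq_zero_iff (two_ne_zero) |>.1 h7
  subst hβ
  have hα0 : α ≠ 0 := by
    rintro rfl
    obtain ⟨i, hi⟩ := hone'
    have h3 := hαβ i
    rw [hi, hred1, zero_mul, zero_mul, add_zero] at h3
    exact one_ne_zero h3
  have hu'O : u' ∈ v.O := by
    have := hO' 0
    rwa [hx.one s, map_one, mul_one] at this
  have hu'α : v.pi ⟨u', hu'O⟩ = α := by
    have h3 := hαβ 0
    rw [hx.one s, map_one, mul_one, hs0, mul_one, zero_mul, add_zero, red_of_mem v u' hu'O] at h3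
    exact h3
  have hunit := v.loc ⟨u', hu'O⟩ (by rw [hu'α]; exact hα0)
  obtain ⟨w, hw⟩ := isUnit_iff_exists_inv.1 hunit
  have hw' : u' * (w : E) = 1 := congrArg Subtype.val hw
  have hσO : ∀ i, σ (x s i) ∈ v.O := by
    intro i
    have h3 : σ (x s i) = (w : E) * (u' * σ (x s i)) := by
      rw [← mul_assoc, mul_comm (w : E), hw', one_mul]
    rw [h3]
    exact v.O.mul_mem _ _ w.2 (hO' i)
  have hσs : ∀ i, v.red (σ (x s i)) = v.red (x s i) := by
    intro i
    have h3 := hαβ i
    rw [zero_mul, add_zero, red_of_mem v _ (hO' i)] at h3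
    have h4 : (⟨u' * σ (x s i), hO' i⟩ : v.O) = ⟨u', hu'O⟩ * ⟨σ (x s i), hσO i⟩ := rfl
    rw [h4, map_mul, hu'α, hs', ← red_of_mem] at h3
    exact mul_left_cancel₀ hα0 h3
  -- the generators
  have hBf : Bf K x {r} = IntermediateField.adjoin K
      (Set.range fun q : {q : (Σ j : Fin k, Fin (N j + 1)) // q.1 ≠ r} => x q.1.1 q.1.2) := by
    unfold Bf
    congr 1
    ext y
    constructor
    · rintro ⟨j, hj, e, rfl⟩
      exact ⟨⟨⟨j, e⟩, by simpa using hj⟩, rfl⟩
    · rintro ⟨⟨⟨j, e⟩, hj⟩, rfl⟩
      exact ⟨j, by simpa using hj, e, rfl⟩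
  let g : {q : (Σ j : Fin k, Fin (N j + 1)) // q.1 ≠ r} → E := fun q => x q.1.1 q.1.2
  obtain ⟨P, Q, hPQ⟩ := (IntermediateField.mem_adjoin_range_iff K g φ).1 (by
    rw [← hBf]
    exact h1)
  have hgO : ∀ q, g q ∈ v.O := fun q => v.inc _ (mem_Bf x _ _ (by simpa using q.2) _)
  have hgB : ∀ q, g q ∈ Bf K x {r} := fun q => mem_Bf x _ _ (by simpa using q.2) _
  have hgσ : ∀ q, σ (g q) ∈ v.O ∧ v.red (σ (g q)) = v.red (g q) := by
    rintro ⟨⟨j, e⟩, hj⟩
    by_cases hjs : j = s
    · subst hjs
      exact ⟨hσO e, hσs e⟩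
    · have h3 : σ (x j e) = x j e := hσ j hjs e
      show σ (x j e) ∈ v.O ∧ v.red (σ (x j e)) = v.red (x j e)
      rw [h3]
      exact ⟨hgO ⟨⟨j, e⟩, hj⟩, rfl⟩
  let G : {q : (Σ j : Fin k, Fin (N j + 1)) // q.1 ≠ r} → v.O := fun q => ⟨g q, hgO q⟩
  let G' : {q : (Σ j : Fin k, Fin (N j + 1)) // q.1 ≠ r} → v.O := fun q => ⟨σ (g q), (hgσ q).1⟩
  have hpi : ∀ A : MvPolynomial {q : (Σ j : Fin k, Fin (N j + 1)) // q.1 ≠ r} K,
      v.pi (eval₂ (kap v) G' A) = v.pi (eval₂ (kap v) G A) := by
    intro A
    rw [hom_eval₂, hom_eval₂]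
    congr 1
    funext q
    show v.pi (G' q) = v.pi (G q)
    exact (red_of_mem v _ (hgσ q).1).symm.trans ((hgσ q).2.trans (red_of_mem v _ (hgO q)))
  have hG : ∀ A : MvPolynomial {q : (Σ j : Fin k, Fin (N j + 1)) // q.1 ≠ r} K,
      ((eval₂ (kap v) G A : v.O) : E) = aeval g A := by
    intro A
    have h3 : v.O.subtype (eval₂ (kap v) G A) = _ := hom_eval₂ _ _ _ _
    exact h3
  have hG' : ∀ A : MvPolynomial {q : (Σ j : Fin k, Fin (N j + 1)) // q.1 ≠ r} K,
      ((eval₂ (kap v) G' A : v.O) : E) = σ (aeval g A) := by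
    intro A
    have h3 : v.O.subtype (eval₂ (kap v) G' A) = aeval (fun q => σ (g q)) A := hom_eval₂ _ _ _ _
    have h4 : σ (aeval g A) = aeval (fun q => σ (g q)) A := by
      have h5 := (comp_aeval_apply g (σ : E →ₐ[K] E) A).symm
      exact h5.symm
    rw [h4]
    exact h3
  by_cases hQ : aeval g Q = 0
  · rw [hPQ, hQ, div_zero, map_zero]
  have hQB : aeval g Q ∈ Bf K x {r} := by
    rw [hBf]
    exact (IntermediateField.mem_adjoin_range_iff K g _).2 ⟨Q, 1, by rw [map_one, div_one]⟩
  have hres : ∀ y : E, ∀ (hy : y ∈ Bf K x {r}) (hy' : y ∈ v.O), v.pi ⟨y, hy'⟩ = 0 → y = 0 := by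
    intro y hy hy' h3
    have h4 : v.res ⟨y, hy⟩ = 0 := h3
    rw [map_eq_zero] at h4
    exact congrArg Subtype.val h4
  have hQO : aeval g Q ∈ v.O := v.inc _ hQB
  have hQ1 : v.pi (eval₂ (kap v) G Q) ≠ 0 := by
    intro h3
    apply hQ
    apply hres _ hQB hQO
    rw [← h3]
    congr 1
    exact Subtype.ext (hG Q).symm
  -- `σ φ - φ` is in `B` and has the residue `0`
  have key : v.pi ⟨σ φ, v.inc _ h2⟩ = v.pi ⟨φ, v.inc _ h1⟩ := by
    apply mul_right_cancel₀ hQ1
    rw [← hpi Q, ← map_mul, hpi Q, ← map_mul]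
    have h3 : (⟨σ φ, v.inc _ h2⟩ : v.O) * eval₂ (kap v) G' Q = eval₂ (kap v) G' P := by
      apply Subtype.ext
      rw [hG']
      show σ φ * ((eval₂ (kap v) G' Q : v.O) : E) = _
      rw [hG', ← map_mul]
      congr 1
      rw [hPQ]
      field_simp
    have h4 : (⟨φ, v.inc _ h1⟩ : v.O) * eval₂ (kap v) G Q = eval₂ (kap v) G P := by
      apply Subtype.ext
      rw [hG]
      show φ * ((eval₂ (kap v) G Q : v.O) : E) = _
      rw [hG, hPQ]
      field_simp
    rw [h3, h4, hpi]
  have h5 := hres (σ φ - φ) (sub_mem h2 h1) (sub_mem (v.inc _ h2) (v.inc _ h1)) (by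
    have h6 : (⟨σ φ - φ, sub_mem (v.inc _ h2) (v.inc _ h1)⟩ : v.O) =
        ⟨σ φ, v.inc _ h2⟩ - ⟨φ, v.inc _ h1⟩ := rfl
    rw [h6, map_sub, key, sub_self])
  exact sub_eq_zero.1 h5

end Pool.Agent.Helper28.M
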